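import Mathlib

set_option autoImplicit false

namespace Pool.Agent.MP_a65686_an

open Set

variable {G : Type}

/-- The adequate family: between two members `a < b` there are at most `e b a` members. -/
def Adm [LinearOrder G] (e : G → G → ℕ) (A : Set G) : Prop :=
  ∀ a ∈ A, ∀ b ∈ A, a < b → ∀ T : Finset G, (∀ t ∈ T, t ∈ A ∧ a < t ∧ t < b) → T.card ≤ e b a

lemma Adm.mono [LinearOrder G] {e : G → G → ℕ} {A B : Set G} (h : Adm e A) (hBA : B ⊆ A) :
    Adm e B := fun a ha b hb hab T hT =>
  h a (hBA ha) b (hBA hb) hab T fun t ht => ⟨hBA (hT t ht).1, (hT t ht).2⟩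

lemma adm_singleton [LinearOrder G] (e : G → G → ℕ) (a : G) : Adm e {a} := by
  intro x hx y hy hxy
  rw [mem_singleton_iff] at hx hy
  subst hx; subst hy
  exact absurd hxy (lt_irrefl _)

lemma Adm.finite_Iio [LinearOrder G] [WellFoundedLT G] {e : G → G → ℕ} {A : Set G}
    (h : Adm e A) {b : G} (hb : b ∈ A) : (A ∩ Iio b).Finite := by
  rcases (A ∩ Iio b).eq_empty_or_nonempty with h0 | hne
  · rw [h0]; exact finite_empty
  obtain ⟨a, ha, hmin⟩ := wellFounded_lt.has_min _ hne
  by_contra hinf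
  have hinf : (A ∩ Iio b).Infinite := hinf
  have hinf' : ((A ∩ Iio b) \ {a}).Infinite := hinf.sdiff (finite_singleton a)
  obtain ⟨T, hT, hcard⟩ := hinf'.exists_subset_card_eq (e b a + 1)
  have := h a ha.1 b hb ha.2 T (fun t ht => by
    have ht' := hT ht
    refine ⟨ht'.1.1, ?_, ht'.1.2⟩
    have h1 : ¬ t < a := hmin t ht'.1
    have h2 : t ≠ a := ht'.2
    exact lt_of_le_of_ne (not_lt.mp h1) h2.symm)
  omega

/-- A weak form of the Delta-system lemma. -/
lemma near_lemma_aux (n : ℕ) : ∀ (U : Set G) (Near : G → Finset G), ¬ U.Countable →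
    (∀ α ∈ U, (Near α).card ≤ n) →
    ∃ V ⊆ U, ¬ V.Countable ∧ ∃ S : Finset G, ∀ a ∉ S, {α ∈ V | a ∈ Near α}.Countable := by
  classical
  induction n with
  | zero =>
    intro U Near hU hc
    refine ⟨U, subset_rfl, hU, ∅, fun a _ => ?_⟩
    have : {α ∈ U | a ∈ Near α} = ∅ := by
      ext α
      simp only [mem_ofPred_eq, mem_empty_iff_false, iff_false, not_and]
      intro hα ha
      have := hc α hα
      rw [Nat.le_zero, Finset.card_eq_zero] at this
      simp [this] at ha
    rw [this]; exact countable_empty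
  | succ n ih =>
    intro U Near hU hc
    by_cases hall : ∀ a, {α ∈ U | a ∈ Near α}.Countable
    · exact ⟨U, subset_rfl, hU, ∅, fun a _ => hall a⟩
    push Not at hall
    obtain ⟨a0, ha0⟩ := hall
    obtain ⟨V, hVU, hV, S, hS⟩ := ih {α ∈ U | a0 ∈ Near α} (fun α => (Near α).erase a0) ha0
      (fun α hα => by
        have := hc α hα.1
        rw [Finset.card_erase_of_mem hα.2]; omega)
    refine ⟨V, fun α hα => (hVU hα).1, hV, insert a0 S, fun a ha => ?_⟩
    rw [Finset.mem_insert, not_or] at ha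
    refine (hS a ha.2).mono ?_
    intro α hα
    exact ⟨hα.1, Finset.mem_erase.mpr ⟨ha.1, hα.2⟩⟩

lemma pigeon (U : Set G) (hU : ¬ U.Countable) (c : G → ℕ) :
    ∃ n, ¬ {α ∈ U | c α ≤ n}.Countable := by
  by_contra h
  push Not at h
  apply hU
  refine (countable_iUnion h).mono ?_
  intro α hα
  exact mem_iUnion.mpr ⟨c α, hα, le_rfl⟩

lemma near_lemma (U : Set G) (Near : G → Finset G) (hU : ¬ U.Countable) :
    ∃ V ⊆ U, ¬ V.Countable ∧ ∃ S : Finset G, ∀ a ∉ S, {α ∈ V | a ∈ Near α}.Countable := by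
  obtain ⟨n, hn⟩ := pigeon U hU (fun α => (Near α).card)
  obtain ⟨V, hVU, hV⟩ := near_lemma_aux n _ Near hn (fun α hα => hα.2)
  exact ⟨V, fun α hα => (hVU hα).1, hV⟩

lemma exists_seq (U : ℕ → Set G) (hU : ∀ k, ¬ (U k).Countable)
    (R : ℕ → G → ℕ → G → Prop)
    (hR : ∀ j k a, j < k → a ∈ U j → {b ∈ U k | ¬ R j a k b}.Countable) :
    ∃ α : ℕ → G, (∀ k, α k ∈ U k) ∧ ∀ j k, j < k → R j (α j) k (α k) := by
  classical
  have H : ∀ (k : ℕ) (prev : ∀ j, j < k → G), ∃ b ∈ U k,
      ∀ j (hj : j < k), prev j hj ∈ U j → R j (prev j hj) k b := by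
    intro k prev
    by_contra hcon
    push Not at hcon
    apply hU k
    have hc : (⋃ (j : Fin k), {b ∈ U k | prev j j.2 ∈ U j ∧ ¬ R j (prev j j.2) k b}).Countable := by
      refine countable_iUnion fun j => ?_
      by_cases hj : prev j j.2 ∈ U j
      · refine (hR j k _ j.2 hj).mono ?_
        intro b hb
        exact ⟨hb.1, hb.2.2⟩
      · exact countable_empty.mono fun b hb => absurd hb.2.1 hj
    refine hc.mono fun b hb => ?_
    obtain ⟨j, hj, h1, h2⟩ := hcon b hb
    exact mem_iUnion.mpr ⟨⟨j, hj⟩, hb, h1, h2⟩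
  choose g hgU hgR using H
  let α : ℕ → G := fun k => Nat.strongRec (motive := fun _ => G) g k
  have hα : ∀ k, α k = g k (fun j _ => α j) := fun k => by
    simp only [α]; rw [Nat.strongRec_eq]
  have hU' : ∀ k, α k ∈ U k := fun k => by rw [hα]; exact hgU _ _
  refine ⟨α, hU', fun j k hjk => ?_⟩
  have := hgR k (fun j _ => α j) j hjk (hU' j)
  rwa [← hα] at this

lemma exists_gt_of_countable [LinearOrder G] [Uncountable G] (hc : ∀ b : G, (Iio b).Countable)
    {S : Set G} (hS : S.Countable) : ∃ b : G, ∀ a ∈ S, a < b := by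
  by_contra h
  push Not at h
  have : (univ : Set G).Countable := by
    have h2 : (⋃ a ∈ S, Iic a).Countable := by
      refine hS.biUnion fun a _ => ?_
      rw [← Iio_union_right]
      exact (hc a).union (countable_singleton a)
    refine h2.mono fun b _ => ?_
    obtain ⟨a, ha, hba⟩ := h b
    exact mem_biUnion ha hba
  exact not_countable_univ this

/-- Functions bounded by one whose support is admissible. -/
def Sgn [LinearOrder G] (e : G → G → ℕ) (σ : G → ℝ) : Prop :=
  (∀ a, |σ a| ≤ 1) ∧ Adm e (Function.support σ)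

/-- Pairing of a function with a finitely supported vector. -/
noncomputable def pair (σ : G → ℝ) (y : G →₀ ℝ) : ℝ := ∑ a ∈ y.support, σ a * y a

lemma exists_level [LinearOrder G] [Uncountable G] (hc : ∀ b : G, (Iio b).Countable)
    (e : G → G → ℕ) (B : Set (G →₀ ℝ)) (hB : B.Nonempty) (C : ℝ)
    (hC : ∀ σ, Sgn e σ → ∀ y ∈ B, pair σ y ≤ C) :
    ∃ (M : ℝ) (α0 : G), (∀ σ, Sgn e σ → (∀ a, σ a ≠ 0 → α0 ≤ a) → ∀ y ∈ B, pair σ y ≤ M) ∧
      ∀ (k : ℕ) (α : G), ∃ σ, Sgn e σ ∧ (∀ a, σ a ≠ 0 → α ≤ a) ∧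
        ∃ y ∈ B, (∀ a, σ a ≠ 0 → a ∈ y.support) ∧ M - 1 / (k + 1) < pair σ y := by
  classical
  let Q : G → ℝ → Prop := fun α r =>
    ∀ σ, Sgn e σ → (∀ a, σ a ≠ 0 → α ≤ a) → ∀ y ∈ B, pair σ y ≤ r
  let R : Set ℝ := {r | ∃ α, Q α r}
  have hne : R.Nonempty := ⟨C, Classical.arbitrary G, fun σ hσ _ y hy => hC σ hσ y hy⟩
  have hbdd : BddBelow R := by
    refine ⟨0, fun r hr => ?_⟩
    obtain ⟨α, hα⟩ := hr
    obtain ⟨y, hy⟩ := hB
    have h0 : Sgn e (fun _ => (0 : ℝ)) := by
      refine ⟨fun a => by simp, ?_⟩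
      intro a ha
      simp at ha
    have := hα (fun _ => 0) h0 (fun a ha => absurd rfl ha) y hy
    simpa [pair] using this
  have h1 : ∀ n : ℕ, ∃ α, Q α (sInf R + 1 / (n + 1)) := by
    intro n
    have hpos : (0 : ℝ) < 1 / (n + 1) := by positivity
    obtain ⟨r, ⟨α, hα⟩, hr⟩ := exists_lt_of_csInf_lt hne (lt_add_of_pos_right (sInf R) hpos)
    exact ⟨α, fun σ hσ h y hy => (hα σ hσ h y hy).trans hr.le⟩
  choose αs hαs using h1
  obtain ⟨α0, hα0⟩ := exists_gt_of_countable hc (countable_range αs)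
  refine ⟨sInf R, α0, fun σ hσ h y hy => ?_, fun k α => ?_⟩
  · refine le_of_forall_pos_le_add fun ε hε => ?_
    obtain ⟨n, hn⟩ := exists_nat_one_div_lt hε
    have := hαs n σ hσ (fun a ha => (hα0 _ ⟨n, rfl⟩).le.trans (h a ha)) y hy
    linarith
  · have hpos : (0 : ℝ) < 1 / (k + 1) := by positivity
    have hn : ¬ Q α (sInf R - 1 / (k + 1)) := by
      intro hQ
      have := csInf_le hbdd ⟨α, hQ⟩
      linarith
    simp only [Q] at hn
    push Not at hn
    obtain ⟨σ, hσ, hs, y, hy, hlt⟩ := hn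
    refine ⟨fun a => if a ∈ y.support then σ a else 0, ⟨fun a => ?_, hσ.2.mono ?_⟩, ?_, y, hy,
      ?_, ?_⟩
    · dsimp only
      split_ifs
      · exact hσ.1 a
      · simp
    · intro a ha
      simp only [Function.mem_support] at ha ⊢
      intro h0
      apply ha
      simp [h0]
    · intro a ha
      apply hs
      intro h0
      apply ha
      simp [h0]
    · intro a ha
      by_contra h0
      apply ha
      simp only [h0, if_false]
    · refine hlt.trans_le (le_of_eq ?_)
      unfold pair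
      refine Finset.sum_congr rfl fun a ha => ?_
      simp only [ha, if_true]

theorem comb [LinearOrder G] [Uncountable G] (hc : ∀ b : G, (Iio b).Countable)
    (e : G → G → ℕ) (he : ∀ b, InjOn (e b) (Iio b))
    (B : Set (G →₀ ℝ)) (hB : B.Nonempty) (C : ℝ)
    (hC : ∀ σ, Sgn e σ → ∀ y ∈ B, pair σ y ≤ C) :
    ∃ (γ : G) (u : G → ℝ) (M : ℝ), u γ = 0 ∧
      (∀ s : ℝ, |s| ≤ 1 → Sgn e (Function.update u γ s) ∧
        ∀ y ∈ B, pair (Function.update u γ s) y ≤ M) ∧
      ∀ ε > 0, ∃ y ∈ B, M - ε < pair u y := by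
  classical
  obtain ⟨M, α0, hM, hlow⟩ := exists_level hc e B hB C hC
  choose h hSgn hge y hyB hsupp hval using hlow
  -- bound on the sizes
  have h1 : ∀ k : ℕ, ∃ n, ¬ {α ∈ (univ : Set G) | (y k α).support.card ≤ n}.Countable :=
    fun k => pigeon univ not_countable_univ _
  choose n hn using h1
  let m : ℕ → ℕ := fun k => 1 + ∑ j ∈ Finset.range (k + 1), n j
  have hfin : ∀ (b : G) (r : ℕ), {a | a < b ∧ e b a < r}.Finite := by
    intro b r
    refine Finite.of_finite_image (f := e b) ((finite_lt_nat r).subset ?_)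
      ((he b).mono fun a ha => ha.1)
    rintro _ ⟨a, ha, rfl⟩
    exact ha.2
  let Near : ℕ → G → Finset G := fun k α =>
    (y k α).support ∪ (y k α).support.biUnion fun b => (hfin b (m k)).toFinset
  have h2 : ∀ k, ∃ V ⊆ {α ∈ (univ : Set G) | (y k α).support.card ≤ n k}, ¬ V.Countable ∧
      ∃ S : Finset G, ∀ a ∉ S, {α ∈ V | a ∈ Near k α}.Countable :=
    fun k => near_lemma _ (Near k) (hn k)
  choose V hVn hV S hS using h2
  obtain ⟨γ, hγ⟩ := exists_gt_of_countable hc
    ((countable_singleton α0).union (countable_iUnion fun k => (S k).countable_toSet))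
  have hγ0 : α0 < γ := hγ _ (Or.inl rfl)
  have hγS : ∀ k a, γ ≤ a → a ∉ S k := fun k a ha haS =>
    absurd (hγ a (Or.inr (mem_iUnion.mpr ⟨k, haS⟩))) (not_lt.mpr ha)
  have hIic : ∀ b : G, (Iic b).Countable := fun b => by
    rw [← Iio_union_right]; exact (hc b).union (countable_singleton b)
  let U : ℕ → Set G := fun k => {α ∈ V k | γ < α ∧ γ ∉ Near k α}
  have hU : ∀ k, ¬ (U k).Countable := by
    intro k hk
    apply hV k
    refine ((hk.union (hIic γ)).union (hS k γ (hγS k γ le_rfl))).mono ?_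
    intro α hα
    by_cases h1 : γ < α
    · by_cases h2 : γ ∈ Near k α
      · exact Or.inr ⟨hα, h2⟩
      · exact Or.inl (Or.inl ⟨hα, h1, h2⟩)
    · exact Or.inl (Or.inr (not_lt.mp h1))
  let R : ℕ → G → ℕ → G → Prop := fun j a k b =>
    (∀ t ∈ (y j a).support, t < b) ∧ ∀ t, h j a t ≠ 0 → t ∉ Near k b
  have hR : ∀ j k a, j < k → a ∈ U j → {b ∈ U k | ¬ R j a k b}.Countable := by
    intro j k a _ ha
    have c1 : (⋃ t ∈ (y j a).support, Iic t).Countable :=
      (y j a).support.countable_toSet.biUnion fun t _ => hIic t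
    have c2 : (⋃ t ∈ {t ∈ ((y j a).support : Set G) | h j a t ≠ 0},
        {b ∈ V k | t ∈ Near k b}).Countable := by
      refine Countable.biUnion ((y j a).support.countable_toSet.mono fun t ht => ht.1) ?_
      intro t ht
      exact hS k t (hγS k t (ha.2.1.le.trans (hge j a t ht.2)))
    refine (c1.union c2).mono ?_
    intro b hb
    obtain ⟨hbU, hb⟩ := hb
    simp only [R, not_and_or] at hb
    rcases hb with hb | hb
    · push Not at hb
      obtain ⟨t, ht, hbt⟩ := hb
      exact Or.inl (mem_biUnion (Finset.mem_coe.mpr ht) hbt)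
    · push Not at hb
      obtain ⟨t, ht, hbt⟩ := hb
      exact Or.inr (mem_biUnion (s := {t ∈ ((y j a).support : Set G) | h j a t ≠ 0})
        ⟨hsupp j a t ht, ht⟩ ⟨hbU.1, hbt⟩)
  obtain ⟨α, hαU, hαR⟩ := exists_seq U hU R hR
  -- the blocks
  let H : ℕ → G → ℝ := fun k => h k (α k)
  let Y : ℕ → G →₀ ℝ := fun k => y k (α k)
  have hHγ : ∀ k t, H k t ≠ 0 → γ < t := fun k t ht => (hαU k).2.1.trans_le (hge k _ t ht)
  have hlt : ∀ j k s t, j < k → H j s ≠ 0 → H k t ≠ 0 → s < t := fun j k s t hjk hs ht =>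
    ((hαR j k hjk).1 s (hsupp j _ s hs)).trans_le (hge k _ t ht)
  have huniq : ∀ j k t, H j t ≠ 0 → H k t ≠ 0 → j = k := by
    intro j k t hj hk
    rcases lt_trichotomy j k with h | h | h
    · exact absurd (hlt j k t t h hj hk) (lt_irrefl _)
    · exact h
    · exact absurd (hlt k j t t h hk hj) (lt_irrefl _)
  let u : G → ℝ := fun t => if ht : ∃ k, H k t ≠ 0 then H ht.choose t else 0
  have hu1 : ∀ k t, H k t ≠ 0 → u t = H k t := by
    intro k t ht
    have hex : ∃ k, H k t ≠ 0 := ⟨k, ht⟩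
    simp only [u, dif_pos hex]
    rw [huniq _ _ t hex.choose_spec ht]
  have hu2 : ∀ t, u t ≠ 0 → ∃ k, H k t ≠ 0 := by
    intro t ht
    by_contra hex
    apply ht
    simp only [u, dif_neg hex]
  have huγ : u γ = 0 := by
    by_contra h0
    obtain ⟨k, hk⟩ := hu2 γ h0
    exact lt_irrefl _ (hHγ k γ hk)
  let A : Set G := {t | t = γ ∨ ∃ k, H k t ≠ 0}
  have hA : Adm e A := by
    intro a ha b hb hab T hT
    rcases hb with rfl | ⟨k, hk⟩
    · exfalso
      rcases ha with rfl | ⟨j, hj⟩
      · exact lt_irrefl _ hab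
      · exact lt_asymm hab (hHγ j a hj)
    by_cases hak : H k a ≠ 0
    · refine (hSgn k (α k)).2 a hak b hk hab T fun t ht => ⟨?_, (hT t ht).2⟩
      obtain ⟨htA, hat, htb⟩ := hT t ht
      rcases htA with rfl | ⟨j, hj⟩
      · exact absurd hat (lt_asymm (hHγ k a hak))
      · rcases lt_trichotomy j k with h | h | h
        · exact absurd hat (lt_asymm (hlt j k t a h hj hak))
        · subst h; exact hj
        · exact absurd htb (lt_asymm (hlt k j b t h hk hj))
    · have hnear : a ∉ Near k (α k) := by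
        rcases ha with rfl | ⟨j, hj⟩
        · exact (hαU k).2.2
        · rcases lt_trichotomy j k with h | h | h
          · exact (hαR j k h).2 a hj
          · subst h; exact absurd hj hak
          · exact absurd hab (lt_asymm (hlt k j b a h hk hj))
      have hm : m k ≤ e b a := by
        by_contra hlt'
        apply hnear
        simp only [Near, Finset.mem_union, Finset.mem_biUnion, Finite.mem_toFinset]
        exact Or.inr ⟨b, hsupp k _ b hk, hab, not_le.mp hlt'⟩
      refine le_trans ?_ hm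
      have hsub : T ⊆ insert γ ((Finset.range (k + 1)).biUnion fun j => (Y j).support) := by
        intro t ht
        obtain ⟨htA, hat, htb⟩ := hT t ht
        rcases htA with rfl | ⟨j, hj⟩
        · exact Finset.mem_insert_self _ _
        · refine Finset.mem_insert_of_mem (Finset.mem_biUnion.mpr ⟨j, ?_, hsupp j _ t hj⟩)
          rw [Finset.mem_range]
          by_contra hjk
          exact lt_asymm htb (hlt k j b t (by omega) hk hj)
      refine (Finset.card_le_card hsub).trans ((Finset.card_insert_le _ _).trans ?_)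
      have : ((Finset.range (k + 1)).biUnion fun j => (Y j).support).card ≤
          ∑ j ∈ Finset.range (k + 1), n j :=
        Finset.card_biUnion_le.trans (Finset.sum_le_sum fun j _ => (hVn j (hαU j).1).2)
      simp only [m]; omega
  refine ⟨γ, u, M, huγ, fun s hs => ?_, fun ε hε => ?_⟩
  · have hsupp' : ∀ t, Function.update u γ s t ≠ 0 → t ∈ A := by
      intro t ht
      by_cases htγ : t = γ
      · exact Or.inl htγ
      · rw [Function.update_of_ne htγ] at ht
        exact Or.inr (hu2 t ht)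
    have hS' : Sgn e (Function.update u γ s) := by
      refine ⟨fun t => ?_, hA.mono hsupp'⟩
      by_cases htγ : t = γ
      · subst htγ; simpa using hs
      · rw [Function.update_of_ne htγ]
        by_cases h0 : u t = 0
        · simp [h0]
        · obtain ⟨k, hk⟩ := hu2 t h0
          rw [hu1 k t hk]
          exact (hSgn k _).1 t
    refine ⟨hS', hM _ hS' fun t ht => ?_⟩
    rcases hsupp' t ht with rfl | ⟨k, hk⟩
    · exact hγ0.le
    · exact (hγ0.trans (hHγ k t hk)).le
  · obtain ⟨k, hk⟩ := exists_nat_one_div_lt hε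
    refine ⟨Y k, hyB k _, ?_⟩
    have hp : pair u (Y k) = pair (H k) (Y k) := by
      unfold pair
      refine Finset.sum_congr rfl fun t ht => ?_
      congr 1
      by_cases h0 : H k t = 0
      · rw [h0]
        by_contra h1
        obtain ⟨j, hj⟩ := hu2 t h1
        rcases lt_trichotomy j k with h | h | h
        · apply (hαR j k h).2 t hj
          simp only [Near, Finset.mem_union]
          exact Or.inl ht
        · subst h; exact hj h0
        · exact absurd ((hαR k j h).1 t ht) (not_lt.mpr (hge j _ t hj))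
      · exact hu1 k t h0
    rw [hp]
    have := hval k (α k)
    simp only [H, Y]
    linarith

end Pool.Agent.MP_a65686_an
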