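import Pool.Agent.MP_a65686_an.Space

set_option autoImplicit false

namespace Pool.Agent.MP_a65686_an

open Set Filter Topology

variable {G : Type} [LinearOrder G] {e : G → G → ℕ}

/-- Finitely supported vectors inside the space. -/
noncomputable def emb (e : G → G → ℕ) (y : G →₀ ℝ) : X e := ∑ a ∈ y.support, y a • bas e a

lemma ev_emb (f : W e) (y : G →₀ ℝ) : ev f (emb e y) = pair f.1 y := by
  unfold emb pair
  rw [map_sum]
  exact Finset.sum_congr rfl fun a _ => by simp [mul_comm]

lemma exists_emb (x : X e) (S : Finset G) : ∃ y, emb e y = ∑ a ∈ S, co x a • bas e a := by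
  classical
  refine ⟨Finsupp.onFinset S (fun a => if a ∈ S then co x a else 0) (fun a ha => ?_), ?_⟩
  · by_contra h; exact ha (if_neg h)
  · unfold emb
    rw [Finset.sum_subset Finsupp.support_onFinset_subset]
    · refine Finset.sum_congr rfl fun a ha => ?_
      simp [ha]
    · intro a _ ha
      rw [Finsupp.notMem_support_iff.mp ha, zero_smul]

lemma emb_smul (c : ℝ) (y : G →₀ ℝ) : emb e (c • y) = c • emb e y := by
  unfold emb
  rw [Finset.smul_sum, Finset.sum_subset Finsupp.support_smul]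
  · exact Finset.sum_congr rfl fun a _ => by simp [mul_smul]
  · intro a _ ha
    rw [Finsupp.notMem_support_iff.mp ha, zero_smul]

theorem no_dual [Uncountable G] (hc : ∀ b : G, (Iio b).Countable)
    (he : ∀ b, InjOn (e b) (Iio b)) (N : X e → ℝ) (c C : ℝ) (hc0 : 0 < c) (hC0 : 0 < C)
    (hN : ∀ x : X e, c * ‖x‖ ≤ N x ∧ N x ≤ C * ‖x‖)
    (hadd : ∀ x y : X e, N (x + y) ≤ N x + N y)
    (hsmul : ∀ (a : ℝ) (x : X e), N (a • x) = |a| * N x) :
    ∃ φ ψ : X e →L[ℝ] ℝ, φ ≠ ψ ∧
      sSup ((fun x => φ x) '' {x : X e | N x ≤ 1}) = 1 ∧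
      sSup ((fun x => ψ x) '' {x : X e | N x ≤ 1}) = 1 ∧
      2 ≤ sSup ((fun x => (φ + ψ) x) '' {x : X e | N x ≤ 1}) := by
  classical
  have hN0 : N 0 = 0 := by simpa using hsmul 0 0
  have hNnn : ∀ x, 0 ≤ N x := fun x => le_trans (by positivity) (hN x).1
  have hNcont : Continuous N := by
    refine LipschitzWith.continuous (K := ⟨C, hC0.le⟩) (LipschitzWith.of_le_add_mul _ fun x y => ?_)
    have h1 := hadd y (x - y)
    have h2 := (hN (x - y)).2
    rw [add_sub_cancel] at h1
    rw [dist_eq_norm]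
    change N x ≤ N y + C * ‖x - y‖
    linarith
  let B : Set (G →₀ ℝ) := {y | N (emb e y) ≤ 1}
  have hB : B.Nonempty := ⟨0, by simp [B, emb, hN0]⟩
  have hC : ∀ σ, Sgn e σ → ∀ y ∈ B, pair σ y ≤ 1 / c := by
    intro σ hσ y hy
    have h1 := ev_emb ⟨σ, hσ.mem_W⟩ y
    simp only at h1
    rw [← h1, ev_apply]
    refine (le_abs_self _).trans ((abs_le_norm _ _).trans ?_)
    rw [le_div_iff₀ hc0, mul_comm]
    exact (hN _).1.trans hy
  obtain ⟨γ, u, M, huγ, hup, hlow⟩ := comb hc e he B hB _ hC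
  let F : ∀ s : ℝ, |s| ≤ 1 → W e := fun s hs => ⟨Function.update u γ s, (hup s hs).1.mem_W⟩
  have h1 : |(1 : ℝ)| ≤ 1 := by simp
  have h2 : |(-1 : ℝ)| ≤ 1 := by simp
  have hM0 : 0 ≤ M := by simpa [pair] using (hup 1 h1).2 0 (by simp [B, emb, hN0])
  -- upper bound on the whole space
  have hub : ∀ s hs (x : X e), ev (F s hs) x ≤ M * N x := by
    intro s hs x
    have hfin : ∀ y : G →₀ ℝ, ev (F s hs) (emb e y) ≤ M * N (emb e y) := by
      intro y
      rcases (hNnn (emb e y)).eq_or_lt with h0 | hpos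
      · have : emb e y = 0 := by
          have := (hN (emb e y)).1
          rw [← h0] at this
          have h3 : ‖emb e y‖ ≤ 0 := by
            by_contra hcon
            have := mul_pos hc0 (not_le.mp hcon)
            linarith
          exact norm_le_zero_iff.mp h3
        rw [this, map_zero, hN0, mul_zero]
      · have hy : (N (emb e y))⁻¹ • y ∈ B := by
          simp only [B, mem_ofPred_eq, emb_smul, hsmul]
          rw [abs_of_pos (inv_pos.mpr hpos), inv_mul_cancel₀ hpos.ne']
        have h3 := (hup s hs).2 _ hy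
        have h4 := ev_emb (F s hs) ((N (emb e y))⁻¹ • y)
        simp only [F] at h4
        rw [← h4, emb_smul, map_smul, smul_eq_mul, inv_mul_le_iff₀ hpos, mul_comm] at h3
        exact h3
    have t1 : Tendsto (fun S : Finset G => ∑ a ∈ S, co x a • bas e a) atTop (𝓝 x) := by
      have := hasSum_bas x
      rwa [HasSum, SummationFilter.unconditional_filter] at this
    refine le_of_tendsto_of_tendsto' (((ev (F s hs)).continuous.tendsto x).comp t1)
      (((hNcont.tendsto x).comp t1).const_mul M) fun S => ?_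
    obtain ⟨y, hy⟩ := exists_emb x S
    simp only [Function.comp, ← hy]
    exact hfin y
  have hbas : ∀ s hs, ev (F s hs) (bas e γ) = s := fun s hs => by simp [F]
  have hMpos : 0 < M := by
    have := hub 1 h1 (bas e γ)
    rw [hbas 1 h1] at this
    by_contra hcon
    have h5 : M = 0 := le_antisymm (not_lt.mp hcon) hM0
    rw [h5, zero_mul] at this
    linarith
  have hsum : ∀ y : G →₀ ℝ,
      ev (F 1 h1) (emb e y) + ev (F (-1) h2) (emb e y) = 2 * pair u y := by
    intro y
    rw [ev_emb, ev_emb]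
    unfold pair
    rw [← Finset.sum_add_distrib, Finset.mul_sum]
    refine Finset.sum_congr rfl fun a _ => ?_
    by_cases ha : a = γ
    · subst ha; simp [F, huγ]
    · simp only [F, Function.update_of_ne ha]; ring
  have hball : ∀ s hs, ∀ x : X e, N x ≤ 1 → (M⁻¹ • ev (F s hs)) x ≤ 1 := by
    intro s hs x hx
    rw [smul_apply, smul_eq_mul, inv_mul_le_iff₀ hMpos]
    exact (hub s hs x).trans (mul_le_mul_of_nonneg_left hx hM0)
  have hnear : ∀ ε > 0, ∃ x : X e, N x ≤ 1 ∧
      2 - ε < (M⁻¹ • ev (F 1 h1)) x + (M⁻¹ • ev (F (-1) h2)) x := by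
    intro ε hε
    obtain ⟨y, hy, hlt⟩ := hlow (ε * M / 2) (by positivity)
    refine ⟨emb e y, hy, ?_⟩
    rw [smul_apply, smul_apply, smul_eq_mul, smul_eq_mul,
      ← mul_add, hsum, lt_inv_mul_iff₀ hMpos]
    linarith
  have hne : ({x : X e | N x ≤ 1}).Nonempty := ⟨0, by simp [hN0]⟩
  refine ⟨M⁻¹ • ev (F 1 h1), M⁻¹ • ev (F (-1) h2), ?_, ?_, ?_, ?_⟩
  · intro heq
    have := congrArg (fun φ : X e →L[ℝ] ℝ => φ (bas e γ)) heq
    simp only [smul_apply, hbas, smul_eq_mul] at this
    have h5 := inv_pos.mpr hMpos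
    linarith
  · refine csSup_eq_of_forall_le_of_forall_lt_exists_gt (hne.image _) ?_ ?_
    · rintro _ ⟨x, hx, rfl⟩
      exact hball 1 h1 x hx
    · intro r hr
      obtain ⟨x, hx, hlt⟩ := hnear (1 - r) (by linarith)
      refine ⟨_, ⟨x, hx, rfl⟩, ?_⟩
      have := hball (-1) h2 x hx
      dsimp only
      linarith
  · refine csSup_eq_of_forall_le_of_forall_lt_exists_gt (hne.image _) ?_ ?_
    · rintro _ ⟨x, hx, rfl⟩
      exact hball (-1) h2 x hx
    · intro r hr
      obtain ⟨x, hx, hlt⟩ := hnear (1 - r) (by linarith)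
      refine ⟨_, ⟨x, hx, rfl⟩, ?_⟩
      have := hball 1 h1 x hx
      dsimp only
      linarith
  · refine le_of_forall_pos_le_add fun ε hε => ?_
    obtain ⟨x, hx, hlt⟩ := hnear ε hε
    have hbdd : BddAbove ((fun x => (M⁻¹ • ev (F 1 h1) + M⁻¹ • ev (F (-1) h2)) x) ''
        {x : X e | N x ≤ 1}) := by
      refine ⟨2, ?_⟩
      rintro _ ⟨z, hz, rfl⟩
      have i1 := hball 1 h1 z hz
      have i2 := hball (-1) h2 z hz
      dsimp only
      rw [add_apply]
      linarith
    have := le_csSup hbdd ⟨x, hx, rfl⟩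
    dsimp only at this
    rw [add_apply] at this
    linarith

theorem exists_index : ∃ (G : Type) (_ : LinearOrder G) (_ : WellFoundedLT G),
    Uncountable G ∧ (∀ b : G, (Iio b).Countable) ∧
      ∃ e : G → G → ℕ, ∀ b, InjOn (e b) (Iio b) := by
  have hc : ∀ b : (Cardinal.aleph 1).ord.ToType, (Iio b).Countable := by
    intro b
    rw [Cardinal.countable_iff_lt_aleph_one]
    exact Cardinal.mk_Iio_toType_ord_lt b
  refine ⟨(Cardinal.aleph 1).ord.ToType, inferInstance, inferInstance, ?_, hc, ?_⟩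
  · rw [← Cardinal.aleph0_lt_mk_iff, Cardinal.mk_ord_toType]
    exact Cardinal.aleph0_lt_aleph_one
  · choose e he using fun b => Set.countable_iff_exists_injOn.mp (hc b)
    exact ⟨e, he⟩

end Pool.Agent.MP_a65686_an
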