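import Pool.Agent.MP_a65686_an.Weights

set_option autoImplicit false

namespace Pool.Agent.MP_a65686_an

open Set Filter Topology

variable {G : Type} [LinearOrder G]

/-- A strictly concave increasing function on the interval from 0 to 3. -/
def kap (t : ℝ) : ℝ := 12 * t - t ^ 2

lemma le_kap {t : ℝ} (h0 : 0 ≤ t) (h3 : t ≤ 3) : t ≤ kap t := by unfold kap; nlinarith

lemma kap_nonneg {t : ℝ} (h0 : 0 ≤ t) (h3 : t ≤ 3) : 0 ≤ kap t := h0.trans (le_kap h0 h3)

lemma kap_le {t : ℝ} (h3 : t ≤ 3) : kap t ≤ 36 := by unfold kap; nlinarith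

/-- The compact solid set of functionals. -/
def W (e : G → G → ℕ) : Set (G → ℝ) := {f | ∃ p ∈ P e, ∀ a, |f a| ≤ kap (p a)}

variable {e : G → G → ℕ}

lemma W_solid {f g : G → ℝ} (hf : f ∈ W e) (h : ∀ a, |g a| ≤ |f a|) : g ∈ W e := by
  obtain ⟨p, hp, hfp⟩ := hf
  exact ⟨p, hp, fun a => (h a).trans (hfp a)⟩

lemma Sgn.mem_W {σ : G → ℝ} (h : Sgn e σ) : σ ∈ W e := by
  refine ⟨fA (Function.support σ), fA_mem_P h.2, fun a => ?_⟩
  by_cases ha : a ∈ Function.support σ
  · exact (h.1 a).trans ((one_le_fA ha).trans (le_kap (fA_nonneg _ _) (fA_le _ _)))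
  · rw [Function.notMem_support.mp ha, abs_zero]
    exact kap_nonneg (fA_nonneg _ _) (fA_le _ _)

lemma isCompact_W (e : G → G → ℕ) : IsCompact (W e) := by
  let K : Set ((G → ℝ) × (G → ℝ)) := {z | z.2 ∈ P e ∧ ∀ a, |z.1 a| ≤ kap (z.2 a)}
  have hK : IsCompact K := by
    refine ((isCompact_univ_pi fun _ : G => (isCompact_Icc : IsCompact (Icc (-36 : ℝ) 36))).prod
      (isCompact_P e)).of_isClosed_subset ?_ ?_
    · have : K = (Prod.snd ⁻¹' P e) ∩ ⋂ a, {z : (G → ℝ) × (G → ℝ) | |z.1 a| ≤ kap (z.2 a)} := by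
        ext z; simp only [K, mem_ofPred_eq, mem_inter_iff, mem_preimage, mem_iInter]
      rw [this]
      refine ((isClosed_P e).preimage continuous_snd).inter (isClosed_iInter fun a => ?_)
      refine isClosed_le (by fun_prop) ?_
      unfold kap
      fun_prop
    · intro z hz
      refine ⟨fun a _ => ?_, hz.1⟩
      exact abs_le.mp ((hz.2 a).trans (kap_le (P_le hz.1 a)))
  have : W e = Prod.fst '' K := by
    ext f
    constructor
    · rintro ⟨p, hp, h⟩
      exact ⟨(f, p), ⟨hp, h⟩, rfl⟩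
    · rintro ⟨z, hz, rfl⟩
      exact ⟨z.2, hz.1, hz.2⟩
  rw [this]
  exact hK.image continuous_fst

instance : CompactSpace (W e) := isCompact_iff_compactSpace.mp (isCompact_W e)

lemma sgn_single (e : G → G → ℕ) (a : G) : Sgn e (Pi.single a (1 : ℝ)) := by
  refine ⟨fun b => ?_, (adm_singleton e a).mono Pi.support_single_subset⟩
  by_cases h : b = a
  · subst h; simp
  · simp [h]

/-- The unit functional at `a`. -/
noncomputable def dlt (e : G → G → ℕ) (a : G) : W e := ⟨Pi.single a 1, (sgn_single e a).mem_W⟩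

/-- The zero functional. -/
def zer (e : G → G → ℕ) : W e := ⟨0, Sgn.mem_W ⟨fun a => by simp, fun a ha => by simp at ha⟩⟩

instance : Nonempty (W e) := ⟨zer e⟩

/-- Removing the coordinates in `S`. -/
noncomputable def cut (S : Finset G) (f : W e) : W e :=
  ⟨fun a => if a ∈ S then 0 else f.1 a, W_solid f.2 fun a => by
    split_ifs
    · simp
    · exact le_rfl⟩

/-- The Banach space. -/
noncomputable def X (e : G → G → ℕ) : Submodule ℝ C(W e, ℝ) where
  carrier := {x | x (zer e) = 0 ∧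
    ∀ (S : Finset G) (f : W e), x f = ∑ a ∈ S, f.1 a * x (dlt e a) + x (cut S f)}
  add_mem' := by
    intro x y hx hy
    refine ⟨by simp [hx.1, hy.1], fun S f => ?_⟩
    simp only [ContinuousMap.add_apply, mul_add, Finset.sum_add_distrib]
    rw [hx.2 S f, hy.2 S f]; ring
  zero_mem' := ⟨rfl, fun S f => by simp⟩
  smul_mem' := by
    intro c x hx
    refine ⟨by simp [hx.1], fun S f => ?_⟩
    simp only [ContinuousMap.smul_apply, smul_eq_mul]
    rw [hx.2 S f, mul_add, Finset.mul_sum]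
    congr 1
    exact Finset.sum_congr rfl fun a _ => by ring

lemma isClosed_X (e : G → G → ℕ) : IsClosed (X e : Set C(W e, ℝ)) := by
  have : (X e : Set C(W e, ℝ)) = {x | x (zer e) = 0} ∩ ⋂ (S : Finset G) (f : W e),
      {x : C(W e, ℝ) | x f = ∑ a ∈ S, f.1 a * x (dlt e a) + x (cut S f)} := by
    ext x
    simp only [mem_inter_iff, mem_iInter, mem_ofPred_eq]
    rfl
  rw [this]
  refine (isClosed_eq (continuous_eval_const _) continuous_const).inter
    (isClosed_iInter fun S => isClosed_iInter fun f => isClosed_eq (continuous_eval_const _) ?_)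
  refine Continuous.add (continuous_finsetSum _ fun a _ => ?_) (continuous_eval_const _)
  exact continuous_const.mul (continuous_eval_const _)

instance : CompleteSpace (X e) := (isClosed_X e).completeSpace_coe

/-- Evaluation functionals. -/
noncomputable def ev (f : W e) : X e →L[ℝ] ℝ :=
  (ContinuousMap.evalCLM ℝ f).comp (X e).subtypeL

@[simp] lemma ev_apply (f : W e) (x : X e) : ev f x = x.1 f := rfl

/-- Basis vectors. -/
noncomputable def bas (e : G → G → ℕ) (a : G) : X e :=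
  ⟨⟨fun f => f.1 a, (continuous_apply a).comp continuous_subtype_val⟩, rfl, fun S f => by
    simp only [ContinuousMap.coe_mk, dlt, cut, Pi.single_apply, mul_ite, mul_one, mul_zero]
    rw [Finset.sum_ite_eq]
    split_ifs <;> simp⟩

@[simp] lemma bas_apply (a : G) (f : W e) : (bas e a).1 f = f.1 a := rfl

/-- Coordinates. -/
noncomputable def co (x : X e) (a : G) : ℝ := x.1 (dlt e a)

lemma abs_le_norm (x : X e) (f : W e) : |x.1 f| ≤ ‖x‖ := x.1.norm_coe_le_norm f

lemma tail (x : X e) {ε : ℝ} (hε : 0 < ε) :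
    ∃ S : Finset G, ∀ g : W e, (∀ a ∈ S, g.1 a = 0) → |x.1 g| ≤ ε := by
  have hc : ContinuousAt x.1 (zer e) := x.1.continuous.continuousAt
  have h1 : {g : W e | |x.1 g| ≤ ε} ∈ 𝓝 (zer e) := by
    have : Metric.closedBall (x.1 (zer e)) ε ∈ 𝓝 (x.1 (zer e)) := Metric.closedBall_mem_nhds _ hε
    refine mem_of_superset (hc this) fun g hg => ?_
    simp only [mem_preimage, Metric.mem_closedBall, Real.dist_eq, x.2.1, sub_zero] at hg
    exact hg
  rw [mem_nhds_subtype] at h1
  obtain ⟨t, ht, hsub⟩ := h1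
  rw [nhds_pi, Filter.mem_pi'] at ht
  obtain ⟨S, u, hu, hut⟩ := ht
  refine ⟨S, fun g hg => hsub (hut fun a ha => ?_)⟩
  rw [hg a ha]
  exact mem_of_mem_nhds (hu a)

lemma partial_sum_apply (x : X e) (S : Finset G) (f : W e) :
    (∑ a ∈ S, co x a • bas e a).1 f = ∑ a ∈ S, f.1 a * co x a := by
  rw [← ev_apply, map_sum]
  exact Finset.sum_congr rfl fun a _ => by simp [mul_comm]

lemma hasSum_bas (x : X e) : HasSum (fun a => co x a • bas e a) x := by
  rw [HasSum, SummationFilter.unconditional_filter, Metric.tendsto_atTop]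
  intro ε hε
  obtain ⟨S, hS⟩ := tail x (half_pos hε)
  refine ⟨S, fun T hT => ?_⟩
  rw [dist_comm, dist_eq_norm]
  refine lt_of_le_of_lt ?_ (half_lt_self hε)
  have : ‖(x - ∑ a ∈ T, co x a • bas e a).1‖ ≤ ε / 2 := by
    rw [ContinuousMap.norm_le _ (half_pos hε).le]
    intro f
    have e1 : (x - ∑ a ∈ T, co x a • bas e a).1 f = x.1 (cut T f) := by
      rw [← ev_apply, map_sub, ev_apply, ev_apply, partial_sum_apply, x.2.2 T f]
      simp [co]
    rw [e1]
    refine hS _ fun a ha => ?_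
    simp only [cut]
    rw [if_pos (hT ha)]
  exact this

lemma hasSum_ev (x : X e) (f : W e) : HasSum (fun a => f.1 a * co x a) (x.1 f) := by
  have := (hasSum_bas x).mapL (ev f)
  simpa [mul_comm] using this

lemma exists_co_ne {x : X e} (hx : x ≠ 0) : ∃ a, co x a ≠ 0 := by
  by_contra h
  push Not at h
  apply hx
  have := hasSum_bas x
  simp only [h, zero_smul] at this
  exact this.unique hasSum_zero

lemma exists_max (x : X e) : ∃ f : W e, x.1 f = ‖x‖ := by
  obtain ⟨f, -, hf⟩ := isCompact_univ.exists_isMaxOn univ_nonempty x.1.continuous.continuousOn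
  refine ⟨f, le_antisymm ((le_abs_self _).trans (abs_le_norm x f)) ?_⟩
  have h0 : 0 ≤ x.1 f := by
    have := hf (mem_univ (zer e))
    rw [mem_ofPred_eq, x.2.1] at this
    exact this
  have : ‖x.1‖ ≤ x.1 f := by
    rw [ContinuousMap.norm_le _ h0]
    intro g
    let g' : W e := ⟨-g.1, W_solid g.2 fun a => by simp⟩
    have h1 : x.1 g' = - x.1 g := by
      refine (hasSum_ev x g').unique ?_
      simpa [g'] using (hasSum_ev x g).neg
    have h2 : x.1 g ≤ x.1 f := hf (mem_univ g)
    have h3 : x.1 g' ≤ x.1 f := hf (mem_univ g')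
    rw [Real.norm_eq_abs, abs_le]
    constructor <;> linarith
  exact this

/-- The functional attached to `q` with the signs of `x`. -/
noncomputable def sg (x : X e) (q : G → ℝ) (hq : q ∈ P e) : W e :=
  ⟨fun a => if 0 ≤ co x a then kap (q a) else - kap (q a), q, hq, fun a => by
    have := kap_nonneg (hq.1 a) (P_le hq a)
    dsimp only
    split_ifs
    · rw [abs_of_nonneg this]
    · rw [abs_neg, abs_of_nonneg this]⟩

lemma sg_mul (x : X e) {q : G → ℝ} (hq : q ∈ P e) (a : G) :
    (sg x q hq).1 a * co x a = kap (q a) * |co x a| := by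
  simp only [sg]
  split_ifs with h
  · rw [abs_of_nonneg h]
  · rw [abs_of_neg (not_le.mp h)]; ring

lemma hasSum_kap (x : X e) {q : G → ℝ} (hq : q ∈ P e) :
    HasSum (fun a => kap (q a) * |co x a|) (x.1 (sg x q hq)) := by
  simpa only [sg_mul] using hasSum_ev x (sg x q hq)

lemma tsum_kap_le (x : X e) {q : G → ℝ} (hq : q ∈ P e) :
    ∑' a, kap (q a) * |co x a| ≤ ‖x‖ := by
  rw [(hasSum_kap x hq).tsum_eq]
  exact (le_abs_self _).trans (abs_le_norm x _)

lemma summable_P (x : X e) {q : G → ℝ} (hq : q ∈ P e) :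
    Summable (fun a => q a * |co x a|) :=
  Summable.of_nonneg_of_le (fun a => mul_nonneg (hq.1 a) (abs_nonneg _))
    (fun a => mul_le_mul_of_nonneg_right (le_kap (hq.1 a) (P_le hq a)) (abs_nonneg _))
    (hasSum_kap x hq).summable

lemma summable_sq (x : X e) {p q : G → ℝ} (hp : p ∈ P e) (hq : q ∈ P e) :
    Summable (fun a => (q a - p a) ^ 2 * |co x a|) := by
  refine Summable.of_nonneg_of_le (fun a => by positivity) (fun a => ?_)
    (((summable_P x hp).add (summable_P x hq)).mul_left 3)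
  have h1 := hp.1 a; have h2 := hq.1 a; have h3 := P_le hp a; have h4 := P_le hq a
  have h5 : (q a - p a) ^ 2 ≤ 3 * (p a + q a) := by nlinarith
  have := mul_le_mul_of_nonneg_right h5 (abs_nonneg (co x a))
  linarith

lemma summable_y (x : X e) {p q : G → ℝ} (hp : p ∈ P e) (hq : q ∈ P e) :
    Summable (fun a => q a * ((12 - 2 * p a) * |co x a|)) := by
  refine Summable.of_nonneg_of_le (fun a => ?_) (fun a => ?_) ((summable_P x hq).mul_left 12)
  · have h1 := hq.1 a; have h3 := P_le hp a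
    have : 0 ≤ 12 - 2 * p a := by linarith
    positivity
  · have h1 := hp.1 a
    have h2 : 0 ≤ q a * |co x a| := mul_nonneg (hq.1 a) (abs_nonneg _)
    nlinarith

lemma tail_y (x : X e) {p : G → ℝ} (hp : p ∈ P e) :
    Tail e (fun a => (12 - 2 * p a) * |co x a|) := by
  intro ε hε
  obtain ⟨S, hS⟩ := tail x (ε := ε / 12) (by positivity)
  refine ⟨S, fun A hA T hT => ?_⟩
  let f := sg x (fA A) (fA_mem_P hA)
  let g : W e := ⟨fun a => if a ∈ T then f.1 a else 0, W_solid f.2 fun a => by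
    split_ifs
    · exact le_rfl
    · simp⟩
  have h1 : |x.1 g| ≤ ε / 12 := hS g fun a ha => by
    simp only [g]
    rw [if_neg (Finset.disjoint_right.mp hT ha)]
  have h2 : x.1 g = ∑ a ∈ T, kap (fA A a) * |co x a| := by
    refine (hasSum_ev x g).unique ?_
    have : ∑ a ∈ T, kap (fA A a) * |co x a| = ∑ a ∈ T, g.1 a * co x a := by
      refine Finset.sum_congr rfl fun a ha => ?_
      simp only [g]
      rw [if_pos ha, sg_mul]
    rw [this]
    refine hasSum_sum_of_ne_finset_zero fun a ha => ?_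
    simp only [g]
    rw [if_neg ha, zero_mul]
  have h3 : ∑ a ∈ T, fA A a * ((12 - 2 * p a) * |co x a|) ≤
      ∑ a ∈ T, 12 * (kap (fA A a) * |co x a|) := by
    refine Finset.sum_le_sum fun a _ => ?_
    have i1 := le_kap (fA_nonneg A a) (fA_le A a)
    have i2 := hp.1 a
    have i3 : 0 ≤ fA A a * |co x a| := mul_nonneg (fA_nonneg A a) (abs_nonneg _)
    have i4 := mul_le_mul_of_nonneg_right i1 (abs_nonneg (co x a))
    nlinarith
  rw [← Finset.mul_sum, ← h2] at h3
  have := le_abs_self (x.1 g)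
  linarith

lemma first_order (x : X e) {p q : G → ℝ} (hp : p ∈ P e) (hq : q ∈ P e)
    (hmax : ∑' a, kap (p a) * |co x a| = ‖x‖) :
    ∑' a, q a * ((12 - 2 * p a) * |co x a|) ≤ ∑' a, p a * ((12 - 2 * p a) * |co x a|) := by
  set Dq := ∑' a, q a * ((12 - 2 * p a) * |co x a|)
  set Dp := ∑' a, p a * ((12 - 2 * p a) * |co x a|)
  set E := ∑' a, (q a - p a) ^ 2 * |co x a|
  have hE : 0 ≤ E := tsum_nonneg fun a => by positivity
  have key : ∀ t : ℝ, 0 < t → t ≤ 1 → Dq - Dp ≤ t * E := by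
    intro t h0 h1
    have hm := P_convex hp hq h0.le h1
    have i1 := tsum_kap_le x hm
    have i2 : HasSum (fun a => kap (p a + t * (q a - p a)) * |co x a|)
        (‖x‖ + t * (Dq - Dp) - t ^ 2 * E) := by
      have s1 := (hasSum_kap x hp).summable.hasSum
      rw [hmax] at s1
      have s2 := (summable_y x hp hq).hasSum
      have s3 := (summable_y x hp hp).hasSum
      have s4 := (summable_sq x hp hq).hasSum
      have := (s1.add ((s2.sub s3).mul_left t)).sub (s4.mul_left (t ^ 2))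
      refine (congrArg (fun g => HasSum g _) (funext fun a => ?_)).mp this
      unfold kap
      ring
    rw [i2.tsum_eq] at i1
    have : t * (Dq - Dp) ≤ t * (t * E) := by nlinarith
    exact le_of_mul_le_mul_left this h0
  by_contra hcon
  push Not at hcon
  have hd : 0 < Dq - Dp := by linarith
  have ht : 0 < min 1 ((Dq - Dp) / (2 * (E + 1))) := lt_min one_pos (by positivity)
  have := key _ ht (min_le_left _ _)
  have i3 : min 1 ((Dq - Dp) / (2 * (E + 1))) * E ≤ (Dq - Dp) / (2 * (E + 1)) * E :=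
    mul_le_mul_of_nonneg_right (min_le_right _ _) hE
  have i4 : (Dq - Dp) / (2 * (E + 1)) * E < Dq - Dp := by
    rw [div_mul_eq_mul_div, div_lt_iff₀ (by positivity)]
    nlinarith
  linarith

lemma max_eq_on_support (x : X e) {p q : G → ℝ} (hp : p ∈ P e) (hq : q ∈ P e)
    (hpm : ∑' a, kap (p a) * |co x a| = ‖x‖) (hqm : ∑' a, kap (q a) * |co x a| = ‖x‖)
    {a : G} (ha : co x a ≠ 0) : p a = q a := by
  have hm := P_convex hp hq (t := 1 / 2) (by norm_num) (by norm_num)
  have i1 := tsum_kap_le x hm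
  set E := ∑' a, (q a - p a) ^ 2 * |co x a| with hEdef
  have i2 : HasSum (fun a => kap (p a + 1 / 2 * (q a - p a)) * |co x a|)
      (1 / 2 * ‖x‖ + 1 / 2 * ‖x‖ + 1 / 4 * E) := by
    have s1 := (hasSum_kap x hp).summable.hasSum
    have s2 := (hasSum_kap x hq).summable.hasSum
    rw [hpm] at s1
    rw [hqm] at s2
    have s4 := (summable_sq x hp hq).hasSum
    have := ((s1.mul_left (1 / 2)).add (s2.mul_left (1 / 2))).add (s4.mul_left (1 / 4))
    refine (congrArg (fun g => HasSum g _) (funext fun a => ?_)).mp this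
    unfold kap
    ring
  rw [i2.tsum_eq] at i1
  have i3 : (q a - p a) ^ 2 * |co x a| ≤ E :=
    (summable_sq x hp hq).le_tsum a fun b _ => by positivity
  have i4 : (q a - p a) ^ 2 * |co x a| ≤ 0 := by linarith
  have i5 : 0 < |co x a| := abs_pos.mpr ha
  have i6 : (q a - p a) ^ 2 ≤ 0 := by
    by_contra hcon
    have := mul_pos (not_le.mp hcon) i5
    linarith
  have i7 : q a - p a = 0 := pow_eq_zero_iff (two_ne_zero) |>.mp (le_antisymm i6 (sq_nonneg _))
  linarith

lemma max_zero_off_support [WellFoundedLT G] {x : X e} (hx : x ≠ 0) {p : G → ℝ} (hp : p ∈ P e)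
    (hpm : ∑' a, kap (p a) * |co x a| = ‖x‖) {γ : G} (hγ : co x γ = 0) : p γ = 0 := by
  obtain ⟨a0, ha0⟩ := exists_co_ne hx
  have hpos : ∀ a, 0 < 12 - 2 * p a := fun a => by have := P_le hp a; linarith
  refine prop_P (e := e) (y := fun a => (12 - 2 * p a) * |co x a|) (a0 := a0)
    (fun a => mul_nonneg (hpos a).le (abs_nonneg _)) (tail_y x hp)
    (mul_pos (hpos a0) (abs_pos.mpr ha0)) (by simp [hγ]) hp (summable_y x hp hp) ?_
  intro A hA
  exact first_order x hp (fA_mem_P hA) hpm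

lemma max_struct (x : X e) {f : W e} (hf : x.1 f = ‖x‖) :
    ∃ p ∈ P e, (∀ a, |f.1 a| ≤ kap (p a)) ∧ ∑' a, kap (p a) * |co x a| = ‖x‖ ∧
      ∀ a, f.1 a * co x a = kap (p a) * |co x a| := by
  obtain ⟨p, hp, hfp⟩ := f.2
  have h1 : ∀ a, f.1 a * co x a ≤ kap (p a) * |co x a| := fun a => by
    refine (le_abs_self _).trans ?_
    rw [abs_mul]
    exact mul_le_mul_of_nonneg_right (hfp a) (abs_nonneg _)
  have s1 := hasSum_ev x f
  have s2 := (hasSum_kap x hp).summable.hasSum
  have h2 := tsum_kap_le x hp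
  have h3 := hasSum_le h1 s1 s2
  refine ⟨p, hp, hfp, le_antisymm h2 (hf ▸ h3), fun a => ?_⟩
  by_contra hne
  have := hasSum_lt h1 (lt_of_le_of_ne (h1 a) hne) s1 s2
  linarith

theorem max_unique [WellFoundedLT G] {x : X e} (hx : x ≠ 0) {f g : W e} (hf : x.1 f = ‖x‖)
    (hg : x.1 g = ‖x‖) : f = g := by
  obtain ⟨p, hp, hfp, hpm, hf'⟩ := max_struct x hf
  obtain ⟨q, hq, hgq, hqm, hg'⟩ := max_struct x hg
  ext a
  by_cases ha : co x a = 0
  · have h1 := hfp a
    have h2 := hgq a
    rw [max_zero_off_support hx hp hpm ha] at h1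
    rw [max_zero_off_support hx hq hqm ha] at h2
    simp only [kap, mul_zero, ne_eq, OfNat.ofNat_ne_zero, not_false_eq_true, zero_pow, sub_self,
      abs_nonpos_iff] at h1 h2
    rw [h1, h2]
  · have h1 := hf' a
    rw [max_eq_on_support x hp hq hpm hqm ha, ← hg' a] at h1
    exact mul_right_cancel₀ ha h1

lemma hasDerivAt_of_unique_max {K : Type} [TopologicalSpace K] [CompactSpace K]
    (x h : K → ℝ) (hx : Continuous x) (hh : Continuous h) (F : ℝ → ℝ)
    (hle : ∀ t k, x k + t * h k ≤ F t) (hex : ∀ t, ∃ k, x k + t * h k = F t)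
    (k0 : K) (hk0 : x k0 = F 0) (huniq : ∀ k, x k = F 0 → k = k0) :
    HasDerivAt F (h k0) 0 := by
  rw [hasDerivAt_iff_isLittleO_nhds_zero, Asymptotics.isLittleO_iff]
  intro ε hε
  have hx0 : ∀ k, x k ≤ F 0 := fun k => by simpa using hle 0 k
  let C : Set K := {k | ε ≤ |h k - h k0|}
  have hC : IsCompact C := (isClosed_le continuous_const (by fun_prop)).isCompact
  obtain ⟨δ, hδ, hCδ⟩ : ∃ δ > 0, ∀ k ∈ C, x k ≤ F 0 - δ := by
    rcases C.eq_empty_or_nonempty with h0 | hne
    · exact ⟨1, one_pos, fun k hk => by rw [h0] at hk; exact hk.elim⟩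
    · obtain ⟨k1, hk1, hmax⟩ := hC.exists_isMaxOn hne hx.continuousOn
      have : x k1 < F 0 := by
        refine lt_of_le_of_ne (hx0 k1) fun heq => ?_
        have := huniq k1 heq
        subst this
        have : ε ≤ |h k1 - h k1| := hk1
        simp at this
        linarith
      refine ⟨F 0 - x k1, by linarith, fun k hk => ?_⟩
      have : x k ≤ x k1 := hmax hk
      linarith
  obtain ⟨Bd, hBd⟩ : ∃ Bd > 0, ∀ k, |h k - h k0| ≤ Bd := by
    obtain ⟨b, hb⟩ := (isCompact_range (f := fun k => |h k - h k0|) (by fun_prop)).bddAbove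
    refine ⟨max b 1, lt_max_of_lt_right one_pos, fun k => le_max_of_le_left (hb ⟨k, rfl⟩)⟩
  have hev : ∀ᶠ t : ℝ in 𝓝 0, |t| < δ / Bd := by
    have : Metric.ball (0 : ℝ) (δ / Bd) ∈ 𝓝 (0 : ℝ) := Metric.ball_mem_nhds _ (div_pos hδ hBd.1)
    filter_upwards [this] with t ht
    simpa using ht
  filter_upwards [hev] with t ht
  rw [zero_add, smul_eq_mul, Real.norm_eq_abs, Real.norm_eq_abs]
  have lo := hle t k0
  obtain ⟨k, hk⟩ := hex t
  have hprod : t * (h k - h k0) ≤ |t| * |h k - h k0| := by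
    rw [← abs_mul]; exact le_abs_self _
  rw [abs_of_nonneg (by linarith)]
  by_cases hkC : k ∈ C
  · have i1 := hCδ k hkC
    have i2 : |t| * |h k - h k0| ≤ |t| * Bd := mul_le_mul_of_nonneg_left (hBd.2 k) (abs_nonneg t)
    have i3 : |t| * Bd ≤ δ := by
      have := (lt_div_iff₀ hBd.1).mp ht
      linarith
    have i4 : 0 ≤ ε * |t| := by positivity
    linarith
  · have i1 : |h k - h k0| ≤ ε := (not_le.mp hkC).le
    have i2 : |t| * |h k - h k0| ≤ |t| * ε := mul_le_mul_of_nonneg_left i1 (abs_nonneg t)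
    have i3 := hx0 k
    linarith

theorem gateaux [WellFoundedLT G] (x : X e) (hx : x ≠ 0) :
    ∃ L : X e →L[ℝ] ℝ, ∀ h : X e, HasDerivAt (fun t : ℝ => ‖x + t • h‖) (L h) 0 := by
  obtain ⟨f, hf⟩ := exists_max x
  refine ⟨ev f, fun h => ?_⟩
  have h0 : ‖x + (0 : ℝ) • h‖ = ‖x‖ := by rw [zero_smul, add_zero]
  refine hasDerivAt_of_unique_max x.1 h.1 x.1.continuous h.1.continuous
    (fun t : ℝ => ‖x + t • h‖) (fun t k => ?_)
    (fun t => ?_) f (hf.trans h0.symm) (fun k hk => max_unique hx (hk.trans h0) hf)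
  · exact (le_abs_self _).trans (abs_le_norm (x + t • h) k)
  · exact exists_max (x + t • h)

end Pool.Agent.MP_a65686_an
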