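import Pool.Agent.MP_a65686_an.Comb

set_option autoImplicit false

namespace Pool.Agent.MP_a65686_an

open Set Filter Topology

variable {G : Type}

open Classical in
/-- `2 ^ (- card B)`, zero for infinite sets. -/
noncomputable def w (B : Set G) : ℝ := if B.Finite then (1 / 2 : ℝ) ^ B.ncard else 0

lemma w_nonneg (B : Set G) : 0 ≤ w B := by
  unfold w; split_ifs
  · positivity
  · exact le_rfl

lemma w_le_one (B : Set G) : w B ≤ 1 := by
  unfold w; split_ifs
  · exact pow_le_one₀ (by norm_num) (by norm_num)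
  · exact zero_le_one

lemma w_anti {B C : Set G} (h : B ⊆ C) : w C ≤ w B := by
  by_cases hC : C.Finite
  · have hB : B.Finite := hC.subset h
    unfold w
    rw [if_pos hC, if_pos hB]
    exact pow_le_pow_of_le_one (by norm_num) (by norm_num) (ncard_le_ncard h hC)
  · have : w C = 0 := by unfold w; rw [if_neg hC]
    rw [this]; exact w_nonneg B

lemma w_lt {B C : Set G} (hB : B.Finite) (h : B ⊂ C) : w C < w B := by
  by_cases hC : C.Finite
  · unfold w
    rw [if_pos hC, if_pos hB]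
    exact pow_lt_pow_right_of_lt_one₀ (by norm_num) (by norm_num) (ncard_lt_ncard h hC)
  · unfold w
    rw [if_neg hC, if_pos hB]
    positivity

lemma w_approx (B : Set G) {ε : ℝ} (hε : 0 < ε) :
    ∃ T : Set G, T.Finite ∧ T ⊆ B ∧ w T ≤ w B + ε := by
  by_cases hB : B.Finite
  · exact ⟨B, hB, subset_rfl, by linarith⟩
  · obtain ⟨n, hn⟩ := exists_pow_lt_of_lt_one hε (by norm_num : (1 / 2 : ℝ) < 1)
    obtain ⟨T, hT, hcard⟩ := Set.Infinite.exists_subset_card_eq hB n
    refine ⟨T, T.finite_toSet, hT, ?_⟩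
    have h1 : w (T : Set G) = (1 / 2 : ℝ) ^ n := by
      unfold w
      rw [if_pos T.finite_toSet, ncard_coe_finset, hcard]
    have := w_nonneg B
    linarith

variable [LinearOrder G]

open Classical in
/-- The weight functional of an admissible set. -/
noncomputable def fA (A : Set G) (a : G) : ℝ :=
  if a ∈ A then 1 + w (A ∩ Iio a) + w A else 0

lemma fA_nonneg (A : Set G) (a : G) : 0 ≤ fA A a := by
  unfold fA; split_ifs
  · have := w_nonneg (A ∩ Iio a); have := w_nonneg A; linarith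
  · exact le_rfl

lemma fA_le (A : Set G) (a : G) : fA A a ≤ 3 := by
  unfold fA; split_ifs
  · have := w_le_one (A ∩ Iio a); have := w_le_one A; linarith
  · norm_num

lemma one_le_fA {A : Set G} {a : G} (ha : a ∈ A) : 1 ≤ fA A a := by
  unfold fA; rw [if_pos ha]
  have := w_nonneg (A ∩ Iio a); have := w_nonneg A; linarith

lemma fA_of_notMem {A : Set G} {a : G} (ha : a ∉ A) : fA A a = 0 := by
  unfold fA; rw [if_neg ha]

lemma fA_mono {A B : Set G} (h : B ⊆ A) {a : G} (ha : a ∈ B) : fA A a ≤ fA B a := by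
  unfold fA; rw [if_pos ha, if_pos (h ha)]
  have h1 := w_anti h
  have h2 := w_anti (inter_subset_inter_left (Iio a) h)
  linarith

/-- Upper semicontinuity of the weights along an ultrafilter. -/
lemma fA_usc (F : Ultrafilter ℕ) (An : ℕ → Set G) (a : G) {ε : ℝ} (hε : 0 < ε) :
    ∀ᶠ n in (F : Filter ℕ), fA (An n) a ≤ fA {t | ∀ᶠ n in (F : Filter ℕ), t ∈ An n} a + ε := by
  set A : Set G := {t | ∀ᶠ n in (F : Filter ℕ), t ∈ An n} with hA
  by_cases ha : a ∈ A
  · obtain ⟨T1, hT1, hs1, hw1⟩ := w_approx (A ∩ Iio a) (half_pos hε)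
    obtain ⟨T2, hT2, hs2, hw2⟩ := w_approx A (half_pos hε)
    have e1 : ∀ᶠ n in (F : Filter ℕ), ∀ t ∈ T1, t ∈ An n :=
      (eventually_all_finite hT1).mpr fun t ht => (hs1 ht).1
    have e2 : ∀ᶠ n in (F : Filter ℕ), ∀ t ∈ T2, t ∈ An n :=
      (eventually_all_finite hT2).mpr fun t ht => hs2 ht
    have e3 : ∀ᶠ n in (F : Filter ℕ), a ∈ An n := ha
    filter_upwards [e1, e2, e3] with n h1 h2 h3
    unfold fA
    rw [if_pos ha, if_pos h3]
    have i1 : w (An n ∩ Iio a) ≤ w T1 := w_anti fun t ht => ⟨h1 t ht, (hs1 ht).2⟩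
    have i2 : w (An n) ≤ w T2 := w_anti h2
    linarith
  · have : ∀ᶠ n in (F : Filter ℕ), a ∉ An n := Ultrafilter.eventually_not.mpr ha
    filter_upwards [this] with n hn
    rw [fA_of_notMem hn, fA_of_notMem ha]
    linarith

lemma adm_lim (e : G → G → ℕ) (F : Ultrafilter ℕ) (An : ℕ → Set G) (h : ∀ n, Adm e (An n)) :
    Adm e {t | ∀ᶠ n in (F : Filter ℕ), t ∈ An n} := by
  intro a ha b hb hab T hT
  have e1 : ∀ᶠ n in (F : Filter ℕ), ∀ t ∈ T, t ∈ An n :=
    (eventually_all_finset T).mpr fun t ht => (hT t ht).1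
  have ha' : ∀ᶠ n in (F : Filter ℕ), a ∈ An n := ha
  have hb' : ∀ᶠ n in (F : Filter ℕ), b ∈ An n := hb
  obtain ⟨n, h1, h2, h3⟩ := (e1.and (ha'.and hb')).exists
  exact h n a h2 b h3 hab T fun t ht => ⟨h1 t ht, (hT t ht).2⟩

/-- The bipolar of the weight functionals. -/
def P (e : G → G → ℕ) : Set (G → ℝ) :=
  {p | (∀ a, 0 ≤ p a) ∧ ∀ (S : Finset G) (y : G → ℝ) (c : ℝ), (∀ a, 0 ≤ y a) →
    (∀ A, Adm e A → ∑ a ∈ S, fA A a * y a ≤ c) → ∑ a ∈ S, p a * y a ≤ c}

lemma fA_mem_P {e : G → G → ℕ} {A : Set G} (hA : Adm e A) : fA A ∈ P e :=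
  ⟨fA_nonneg A, fun _ _ _ _ h => h A hA⟩

lemma P_le {e : G → G → ℕ} {p : G → ℝ} (hp : p ∈ P e) (a : G) : p a ≤ 3 := by
  have := hp.2 {a} (fun _ => 1) 3 (fun _ => zero_le_one) (fun A _ => by simpa using fA_le A a)
  simpa using this

lemma P_convex {e : G → G → ℕ} {p q : G → ℝ} (hp : p ∈ P e) (hq : q ∈ P e) {t : ℝ}
    (h0 : 0 ≤ t) (h1 : t ≤ 1) : (fun a => p a + t * (q a - p a)) ∈ P e := by
  refine ⟨fun a => ?_, fun S y c hy h => ?_⟩
  · have := hp.1 a; have := hq.1 a
    nlinarith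
  · have i1 := hp.2 S y c hy h
    have i2 := hq.2 S y c hy h
    have : ∑ a ∈ S, (p a + t * (q a - p a)) * y a =
        (1 - t) * ∑ a ∈ S, p a * y a + t * ∑ a ∈ S, q a * y a := by
      rw [Finset.mul_sum, Finset.mul_sum, ← Finset.sum_add_distrib]
      refine Finset.sum_congr rfl fun a _ => by ring
    rw [this]
    nlinarith

lemma isClosed_P (e : G → G → ℕ) : IsClosed (P e) := by
  have : P e = (⋂ a, {p : G → ℝ | 0 ≤ p a}) ∩ ⋂ (S : Finset G) (y : G → ℝ) (c : ℝ)
      (_ : ∀ a, 0 ≤ y a) (_ : ∀ A, Adm e A → ∑ a ∈ S, fA A a * y a ≤ c),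
      {p : G → ℝ | ∑ a ∈ S, p a * y a ≤ c} := by
    ext p
    simp only [P, mem_ofPred_eq, mem_inter_iff, mem_iInter]
  rw [this]
  refine IsClosed.inter (isClosed_iInter fun a => isClosed_le continuous_const (continuous_apply a))
    ?_
  refine isClosed_iInter fun S => isClosed_iInter fun y => isClosed_iInter fun c =>
    isClosed_iInter fun _ => isClosed_iInter fun _ => isClosed_le ?_ continuous_const
  exact continuous_finsetSum _ fun a _ => (continuous_apply a).mul continuous_const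

lemma isCompact_P (e : G → G → ℕ) : IsCompact (P e) := by
  refine (isCompact_univ_pi fun _ : G => (isCompact_Icc : IsCompact (Icc (0 : ℝ) 3))).of_isClosed_subset
    (isClosed_P e) ?_
  intro p hp a _
  exact ⟨hp.1 a, P_le hp a⟩

/-- Uniformly small tails. -/
def Tail (e : G → G → ℕ) (y : G → ℝ) : Prop :=
  ∀ ε > 0, ∃ S : Finset G, ∀ A, Adm e A → ∀ T : Finset G, Disjoint T S →
    ∑ a ∈ T, fA A a * y a ≤ ε

lemma Tail.summable {e : G → G → ℕ} {y : G → ℝ} (hy : ∀ a, 0 ≤ y a) (h : Tail e y)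
    {A : Set G} (hA : Adm e A) : Summable fun a => fA A a * y a := by
  rw [summable_iff_vanishing_norm]
  intro ε hε
  obtain ⟨S, hS⟩ := h (ε / 2) (half_pos hε)
  refine ⟨S, fun T hT => ?_⟩
  have h1 := hS A hA T hT
  have h2 : 0 ≤ ∑ a ∈ T, fA A a * y a :=
    Finset.sum_nonneg fun a _ => mul_nonneg (fA_nonneg A a) (hy a)
  rw [Real.norm_eq_abs, abs_of_nonneg h2]
  linarith

lemma Tail.tsum_le {e : G → G → ℕ} {y : G → ℝ} (hy : ∀ a, 0 ≤ y a) (h : Tail e y)
    {ε : ℝ} (hε : 0 < ε) : ∃ S : Finset G, ∀ A, Adm e A →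
      ∑' a, fA A a * y a ≤ ∑ a ∈ S, fA A a * y a + ε := by
  classical
  obtain ⟨S, hS⟩ := h ε hε
  refine ⟨S, fun A hA => ?_⟩
  refine (h.summable hy hA).tsum_le_of_sum_le fun T => ?_
  have h1 : ∑ a ∈ T, fA A a * y a ≤ ∑ a ∈ S ∪ (T \ S), fA A a * y a := by
    refine Finset.sum_le_sum_of_subset_of_nonneg ?_ fun a _ _ => mul_nonneg (fA_nonneg A a) (hy a)
    intro a ha
    by_cases haS : a ∈ S
    · exact Finset.mem_union_left _ haS
    · exact Finset.mem_union_right _ (Finset.mem_sdiff.mpr ⟨ha, haS⟩)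
  rw [Finset.sum_union Finset.disjoint_sdiff] at h1
  have h2 := hS A hA (T \ S) Finset.sdiff_disjoint
  linarith

/-- Removing a point outside the support improves the value. -/
lemma improve [WellFoundedLT G] {e : G → G → ℕ} {y : G → ℝ} (hy : ∀ a, 0 ≤ y a) (h : Tail e y)
    {a0 γ : G} (h0 : 0 < y a0) (hγ : y γ = 0) {A : Set G} (hA : Adm e A) (hγA : γ ∈ A) :
    ∃ A', Adm e A' ∧ ∑' a, fA A a * y a < ∑' a, fA A' a * y a := by
  by_cases h1 : ∃ b ∈ A, γ < b ∧ 0 < y b
  · obtain ⟨b, hb, hγb, hyb⟩ := h1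
    have hA' : Adm e (A \ {γ}) := hA.mono sdiff_subset
    refine ⟨A \ {γ}, hA', ?_⟩
    refine Summable.tsum_lt_tsum (i := b) (fun a => ?_) ?_ (h.summable hy hA) (h.summable hy hA')
    · by_cases ha : a ∈ A \ {γ}
      · exact mul_le_mul_of_nonneg_right (fA_mono sdiff_subset ha) (hy a)
      · by_cases haγ : a = γ
        · subst haγ; simp [hγ]
        · have : a ∉ A := fun haA => ha ⟨haA, haγ⟩
          simp only [fA_of_notMem this, fA_of_notMem ha, le_refl]
    · refine mul_lt_mul_of_pos_right ?_ hyb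
      have hb' : b ∈ A \ {γ} := ⟨hb, hγb.ne'⟩
      unfold fA
      rw [if_pos hb, if_pos hb']
      have i1 : w A ≤ w (A \ {γ}) := w_anti sdiff_subset
      have i2 : w (A ∩ Iio b) < w ((A \ {γ}) ∩ Iio b) := by
        refine w_lt (hA'.finite_Iio hb') ?_
        refine ⟨inter_subset_inter_left _ sdiff_subset, fun hsub => ?_⟩
        exact (hsub ⟨hγA, hγb⟩).1.2 rfl
      linarith
  · push Not at h1
    by_cases h2 : ∃ b ∈ A, 0 < y b
    · obtain ⟨b, hb, hyb⟩ := h2
      have hbγ : b < γ := by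
        rcases lt_trichotomy b γ with hh | hh | hh
        · exact hh
        · subst hh; linarith
        · exact absurd (h1 b hb hh) (not_le.mpr hyb)
      have hA' : Adm e (A ∩ Iio γ) := hA.mono inter_subset_left
      refine ⟨A ∩ Iio γ, hA', ?_⟩
      refine Summable.tsum_lt_tsum (i := b) (fun a => ?_) ?_ (h.summable hy hA) (h.summable hy hA')
      · by_cases ha : a ∈ A ∩ Iio γ
        · exact mul_le_mul_of_nonneg_right (fA_mono inter_subset_left ha) (hy a)
        · by_cases haA : a ∈ A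
          · have hya : y a = 0 := by
              rcases lt_trichotomy a γ with hh | hh | hh
              · exact absurd ⟨haA, hh⟩ ha
              · rw [hh]; exact hγ
              · exact le_antisymm (h1 a haA hh) (hy a)
            simp [hya]
          · simp only [fA_of_notMem haA, fA_of_notMem ha, le_refl]
      · refine mul_lt_mul_of_pos_right ?_ hyb
        have hb' : b ∈ A ∩ Iio γ := ⟨hb, hbγ⟩
        unfold fA
        rw [if_pos hb, if_pos hb']
        have i1 : w (A ∩ Iio b) ≤ w ((A ∩ Iio γ) ∩ Iio b) :=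
          w_anti (inter_subset_inter_left _ inter_subset_left)
        have i2 : w A < w (A ∩ Iio γ) := by
          refine w_lt (hA.finite_Iio hγA) ⟨inter_subset_left, fun hsub => ?_⟩
          exact lt_irrefl γ (hsub hγA).2
        linarith
    · push Not at h2
      refine ⟨{a0}, adm_singleton e a0, ?_⟩
      have hz : ∀ a, fA A a * y a = 0 := by
        intro a
        by_cases haA : a ∈ A
        · rw [le_antisymm (h2 a haA) (hy a), mul_zero]
        · rw [fA_of_notMem haA, zero_mul]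
      simp only [hz, tsum_zero]
      refine Summable.tsum_pos (h.summable hy (adm_singleton e a0))
        (fun a => mul_nonneg (fA_nonneg _ a) (hy a)) a0 ?_
      exact mul_pos (zero_lt_one.trans_le (one_le_fA (mem_singleton a0))) h0

lemma gap [WellFoundedLT G] {e : G → G → ℕ} {y : G → ℝ} (hy : ∀ a, 0 ≤ y a) (h : Tail e y)
    {a0 γ : G} (h0 : 0 < y a0) (hγ : y γ = 0) {V : ℝ}
    (hV : ∀ A, Adm e A → ∑' a, fA A a * y a ≤ V) :
    ∃ δ > 0, ∀ A, Adm e A → γ ∈ A → ∑' a, fA A a * y a ≤ V - δ := by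
  by_contra hcon
  push Not at hcon
  have h1 : ∀ n : ℕ, ∃ A, Adm e A ∧ γ ∈ A ∧ V - 1 / (n + 1) < ∑' a, fA A a * y a :=
    fun n => hcon _ (by positivity)
  choose An hAn hγn hval using h1
  let F : Ultrafilter ℕ := hyperfilter ℕ
  set A : Set G := {t | ∀ᶠ n in (F : Filter ℕ), t ∈ An n} with hAdef
  have hA : Adm e A := adm_lim e F An hAn
  have hγA : γ ∈ A := Eventually.of_forall hγn
  have hge : V ≤ ∑' a, fA A a * y a := by
    refine le_of_forall_pos_le_add fun ε hε => ?_
    obtain ⟨S, hS⟩ := h.tsum_le hy (ε := ε / 3) (by positivity)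
    set K : ℝ := ∑ a ∈ S, y a + 1 with hK
    have hKpos : 0 < K := by
      have : 0 ≤ ∑ a ∈ S, y a := Finset.sum_nonneg fun a _ => hy a
      linarith
    have e1 : ∀ᶠ n in (F : Filter ℕ), ∀ a ∈ S, fA (An n) a ≤ fA A a + ε / 3 / K :=
      (eventually_all_finset S).mpr fun a _ => fA_usc F An a (by positivity)
    have e2 : ∀ᶠ n : ℕ in (F : Filter ℕ), (1 : ℝ) / (n + 1) < ε / 3 := by
      refine Eventually.filter_mono Nat.hyperfilter_le_atTop ?_
      exact tendsto_one_div_add_atTop_nhds_zero_nat.eventually (gt_mem_nhds (by positivity))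
    obtain ⟨n, hn1, hn2⟩ := (e1.and e2).exists
    have i1 := hval n
    have i2 := hS (An n) (hAn n)
    have i3 : ∑ a ∈ S, fA (An n) a * y a ≤ ∑ a ∈ S, (fA A a + ε / 3 / K) * y a :=
      Finset.sum_le_sum fun a ha => mul_le_mul_of_nonneg_right (hn1 a ha) (hy a)
    have i4 : ∑ a ∈ S, (fA A a + ε / 3 / K) * y a =
        ∑ a ∈ S, fA A a * y a + ε / 3 / K * ∑ a ∈ S, y a := by
      rw [Finset.mul_sum, ← Finset.sum_add_distrib]
      exact Finset.sum_congr rfl fun a _ => by ring
    have i5 : ε / 3 / K * ∑ a ∈ S, y a ≤ ε / 3 := by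
      rw [div_mul_eq_mul_div, div_le_iff₀ hKpos]
      have : ∑ a ∈ S, y a ≤ K := by linarith
      exact mul_le_mul_of_nonneg_left this (by positivity)
    have i6 : ∑ a ∈ S, fA A a * y a ≤ ∑' a, fA A a * y a :=
      (h.summable hy hA).sum_le_tsum S fun a _ => mul_nonneg (fA_nonneg A a) (hy a)
    linarith
  obtain ⟨A', hA', hlt⟩ := improve hy h h0 hγ hA hγA
  have := hV A' hA'
  linarith

/-- A maximiser in `P` vanishes off the support. -/
theorem prop_P [WellFoundedLT G] {e : G → G → ℕ} {y : G → ℝ} (hy : ∀ a, 0 ≤ y a) (h : Tail e y)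
    {a0 γ : G} (h0 : 0 < y a0) (hγ : y γ = 0) {p : G → ℝ} (hp : p ∈ P e)
    (hs : Summable fun a => p a * y a)
    (hV : ∀ A, Adm e A → ∑' a, fA A a * y a ≤ ∑' a, p a * y a) : p γ = 0 := by
  classical
  obtain ⟨δ, hδ, hgap⟩ := gap hy h h0 hγ hV
  set V := ∑' a, p a * y a with hVdef
  have key : ∀ (q : G → ℝ) (S : Finset G),
      ∑ a ∈ insert γ S, q a * Function.update y γ (δ / 3) a =
        ∑ a ∈ S, q a * y a + q γ * (δ / 3) := by
    intro q S
    have e1 : ∀ a, q a * Function.update y γ (δ / 3) a =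
        q a * y a + if a = γ then q γ * (δ / 3) else 0 := by
      intro a
      by_cases ha : a = γ
      · subst ha; simp [hγ]
      · simp [ha]
    simp only [e1, Finset.sum_add_distrib, Finset.sum_ite_eq', Finset.mem_insert_self, if_true]
    congr 1
    by_cases hγS : γ ∈ S
    · rw [Finset.insert_eq_of_mem hγS]
    · rw [Finset.sum_insert hγS, hγ]; simp
  have h1 : ∀ S : Finset G, ∑ a ∈ S, p a * y a ≤ V - p γ * (δ / 3) := by
    intro S
    have := hp.2 (insert γ S) (Function.update y γ (δ / 3)) V (fun a => ?_) (fun A hA => ?_)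
    · rw [key] at this; linarith
    · by_cases ha : a = γ
      · subst ha; simp only [Function.update_self]; positivity
      · rw [Function.update_of_ne ha]; exact hy a
    · rw [key]
      have i6 : ∑ a ∈ S, fA A a * y a ≤ ∑' a, fA A a * y a :=
        (h.summable hy hA).sum_le_tsum S fun a _ => mul_nonneg (fA_nonneg A a) (hy a)
      by_cases hγA : γ ∈ A
      · have i1 := hgap A hA hγA
        have i2 := fA_le A γ
        nlinarith
      · rw [fA_of_notMem hγA]
        have := hV A hA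
        linarith
  have h2 : V ≤ V - p γ * (δ / 3) := hs.tsum_le_of_sum_le h1
  have h3 := hp.1 γ
  have h4 : p γ * (δ / 3) ≤ 0 := by linarith
  by_contra hne
  have : 0 < p γ * (δ / 3) := mul_pos (lt_of_le_of_ne h3 (Ne.symm hne)) (by positivity)
  linarith

end Pool.Agent.MP_a65686_an
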